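import Pool.Agent.helper16.LW.Spec
import Pool.Agent.helper59.DM.DV

/-!
# Project lw: GRD (the grid theorem)
-/

set_option autoImplicit false

open Complex MeasureTheory
open scoped ComplexOrder

namespace Pool.Agent.LW

open Pool.Agent.ZD Pool.Agent.helper84.DM Pool.Agent.helper78.ED Pool.Agent.DH

theorem GRD_DP (N : ℕ) (a : ℕ → ℂ) (ha : Co N a) (u : ℝ) : ‖DP N a u‖ ≤ N := by
  unfold DP
  refine (norm_sum_le _ _).trans ?_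
  have h1 : ∀ n ∈ Finset.Ioc N (2 * N), ‖a n * (n : ℂ) ^ (-((u : ℂ) * I))‖ ≤ 1 := by
    intro n hn
    have hn1 : 0 < n := by
      rw [Finset.mem_Ioc] at hn
      omega
    rw [norm_mul, Complex.norm_natCast_cpow_of_pos hn1]
    have h2 : (-((u : ℂ) * I)).re = 0 := by simp
    rw [h2, Real.rpow_zero, mul_one]
    exact ha n hn
  refine (Finset.sum_le_sum h1).trans ?_
  rw [Finset.sum_const, Nat.card_Ioc, nsmul_eq_mul, mul_one]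
  have h3 : 2 * N - N = N := by omega
  rw [h3]

theorem GRD_F (hFEJ : FEJ_stmt) (J N : ℕ) (a : ℕ → ℂ) (U : ℝ) (j : ℤ) (hj : j ∈ IJ J) :
    0 ≤ FU J N a U j ∧ FU J N a U j ≤ F0 J N a j ∧ F0 J N a j ≤ ‖DP N a (j : ℝ)‖ ^ 2 := by
  obtain ⟨h0, h1⟩ := hFEJ.2.1 J j hj
  have h2 : 0 ≤ F0 J N a j := by
    unfold F0
    positivity
  have h3 : F0 J N a j ≤ ‖DP N a (j : ℝ)‖ ^ 2 := by
    unfold F0
    calc wj J j * ‖DP N a (j : ℝ)‖ ^ 2 ≤ 1 * ‖DP N a (j : ℝ)‖ ^ 2 :=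
          mul_le_mul_of_nonneg_right h1 (by positivity)
      _ = _ := one_mul _
  unfold FU
  split_ifs
  · exact ⟨h2, le_refl _, h3⟩
  · exact ⟨le_refl _, h2, h3⟩

/-- real number facts -/
theorem GRD_r1 (J N : ℝ) (hN : 1 ≤ N) (hNJ : N ≤ J) :
    N * (J ^ (5 / 7 : ℝ) * N ^ (-(6 / 7 : ℝ))) ≤ J := by
  have hN0 : 0 < N := by linarith
  have hJ0 : 0 < J := by linarith
  have hJ1 : 1 ≤ J := by linarith
  have h1 : N * (J ^ (5 / 7 : ℝ) * N ^ (-(6 / 7 : ℝ))) = J ^ (5 / 7 : ℝ) * N ^ (1 / 7 : ℝ) := by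
    have h2 : N * N ^ (-(6 / 7 : ℝ)) = N ^ (1 / 7 : ℝ) := by
      nth_rewrite 1 [← Real.rpow_one N]
      rw [← Real.rpow_add hN0]
      norm_num
    calc N * (J ^ (5 / 7 : ℝ) * N ^ (-(6 / 7 : ℝ))) = J ^ (5 / 7 : ℝ) * (N * N ^ (-(6 / 7 : ℝ))) := by
          ring
      _ = _ := by rw [h2]
  rw [h1]
  calc J ^ (5 / 7 : ℝ) * N ^ (1 / 7 : ℝ) ≤ J ^ (5 / 7 : ℝ) * J ^ (2 / 7 : ℝ) := by
        apply mul_le_mul_of_nonneg_left _ (by positivity)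
        calc N ^ (1 / 7 : ℝ) ≤ J ^ (1 / 7 : ℝ) := Real.rpow_le_rpow hN0.le hNJ (by norm_num)
          _ ≤ J ^ (2 / 7 : ℝ) := Real.rpow_le_rpow_of_exponent_le hJ1 (by norm_num)
    _ = J := by
        rw [← Real.rpow_add hJ0]
        norm_num

theorem GRD_r2 (J N : ℝ) (hN : 1 ≤ N) (hNJ : N ≤ J) :
    N ^ (3 / 2 : ℝ) * (N ^ 2 * (1 + J ^ (5 / 7 : ℝ) * N ^ (-(6 / 7 : ℝ)))) ≤ BB J N := by
  have hN0 : 0 < N := by linarith
  have hJ0 : 0 < J := by linarith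
  have hJ1 : 1 ≤ J := by linarith
  unfold BB
  have h1 : N ^ (3 / 2 : ℝ) * N ^ 2 = N ^ (1 / 2 : ℝ) * N ^ 3 := by
    have h3 : N ^ (3 / 2 : ℝ) = N ^ (1 / 2 : ℝ) * N := by
      nth_rewrite 3 [← Real.rpow_one N]
      rw [← Real.rpow_add hN0]
      norm_num
    rw [h3]
    ring
  have h2 : N ^ (1 / 2 : ℝ) ≤ J ^ (1 / 2 : ℝ) := Real.rpow_le_rpow hN0.le hNJ (by norm_num)
  have h4 : N ^ (3 / 2 : ℝ) * N ^ 2 * (J ^ (5 / 7 : ℝ) * N ^ (-(6 / 7 : ℝ))) =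
      J ^ (5 / 7 : ℝ) * (N ^ (1 / 14 : ℝ) * N ^ (18 / 7 : ℝ)) := by
    have h5 : N ^ (3 / 2 : ℝ) * N ^ 2 * N ^ (-(6 / 7 : ℝ)) = N ^ (1 / 14 : ℝ) * N ^ (18 / 7 : ℝ) := by
      rw [← Real.rpow_natCast N 2, ← Real.rpow_add hN0, ← Real.rpow_add hN0, ← Real.rpow_add hN0]
      norm_num
    rw [← h5]
    ring
  have h6 : N ^ (1 / 14 : ℝ) ≤ J ^ (1 / 7 : ℝ) :=
    (Real.rpow_le_rpow hN0.le hNJ (by norm_num)).trans
      (Real.rpow_le_rpow_of_exponent_le hJ1 (by norm_num))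
  have h7 : J ^ (5 / 7 : ℝ) * (N ^ (1 / 14 : ℝ) * N ^ (18 / 7 : ℝ)) ≤
      J ^ (6 / 7 : ℝ) * N ^ (18 / 7 : ℝ) := by
    have h8 : J ^ (6 / 7 : ℝ) = J ^ (5 / 7 : ℝ) * J ^ (1 / 7 : ℝ) := by
      rw [← Real.rpow_add hJ0]
      norm_num
    rw [h8, mul_assoc]
    apply mul_le_mul_of_nonneg_left _ (by positivity)
    exact mul_le_mul_of_nonneg_right h6 (by positivity)
  calc N ^ (3 / 2 : ℝ) * (N ^ 2 * (1 + J ^ (5 / 7 : ℝ) * N ^ (-(6 / 7 : ℝ)))) =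
        N ^ (3 / 2 : ℝ) * N ^ 2 +
          N ^ (3 / 2 : ℝ) * N ^ 2 * (J ^ (5 / 7 : ℝ) * N ^ (-(6 / 7 : ℝ))) := by ring
    _ = N ^ (1 / 2 : ℝ) * N ^ 3 + J ^ (5 / 7 : ℝ) * (N ^ (1 / 14 : ℝ) * N ^ (18 / 7 : ℝ)) := by
        rw [h4, h1]
    _ ≤ J ^ (1 / 2 : ℝ) * N ^ 3 + J ^ (6 / 7 : ℝ) * N ^ (18 / 7 : ℝ) := by
        apply add_le_add _ h7
        exact mul_le_mul_of_nonneg_right h2 (by positivity)

/-- the main inequality for the trace bounds (real numbers) -/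
theorem GRD_alg (J N L m τ t3 t2 P C2 C3 CQ Q R : ℝ) (hP : 1 ≤ P) (hN : 0 ≤ N)
    (hL : 0 ≤ L) (hJ : 0 ≤ J) (hm : 0 ≤ m) (hτ : 0 ≤ τ) (hC2 : 0 ≤ C2) (hC3 : 0 ≤ C3)
    (hCQ : 0 ≤ CQ) (hR : 0 ≤ R)
    (hQ : Q ≤ CQ * P * (R * m + J ^ 2 * N ^ 3)) (h32 : 0 ≤ m ^ (3 / 2 : ℝ))
    (h3 : t3 ≤ C3 * P * (J ^ 2 * m ^ (3 / 2 : ℝ) + N * L * J * Q) + C3)
    (h2 : t2 ≤ C2 * P * ((N * L) ^ 2 * J * N) * m)
    (h : L * m ^ 3 ≤ 12 * τ * N ^ 3 * (t3 + t2)) :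
    L * m ^ 3 ≤ (12 * τ * (C2 + C3 * (1 + CQ)) * P ^ 2) * N ^ 3 *
      ((N * L) ^ 2 * J * N * m + J ^ 2 * m ^ (3 / 2 : ℝ) +
        N * L * J * (R * m + J ^ 2 * N ^ 3) + 1) := by
  have hP0 : 0 ≤ P := by linarith
  have hPP : P ≤ P ^ 2 := by
    have := mul_le_mul_of_nonneg_left hP hP0
    rw [mul_one] at this
    rw [sq]
    exact this
  have hP1 : 1 ≤ P ^ 2 := one_le_pow₀ hP
  set A := (N * L) ^ 2 * J * N * m with hA
  set B := J ^ 2 * m ^ (3 / 2 : ℝ) with hB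
  set D := N * L * J * (R * m + J ^ 2 * N ^ 3) with hD
  have hA0 : 0 ≤ A := by positivity
  have hB0 : 0 ≤ B := by positivity
  have hD0 : 0 ≤ D := by positivity
  have e2 : t2 ≤ C2 * P ^ 2 * A := by
    calc t2 ≤ C2 * P * ((N * L) ^ 2 * J * N) * m := h2
      _ = (C2 * A) * P := by rw [hA]; ring
      _ ≤ (C2 * A) * P ^ 2 := mul_le_mul_of_nonneg_left hPP (by positivity)
      _ = _ := by ring
  have e3 : N * L * J * Q ≤ CQ * P * D := by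
    calc N * L * J * Q ≤ N * L * J * (CQ * P * (R * m + J ^ 2 * N ^ 3)) :=
          mul_le_mul_of_nonneg_left hQ (by positivity)
      _ = CQ * P * D := by rw [hD]; ring
  have e4 : t3 ≤ C3 * (1 + CQ) * P ^ 2 * (B + D + 1) := by
    calc t3 ≤ C3 * P * (B + N * L * J * Q) + C3 := h3
      _ ≤ C3 * P * (B + CQ * P * D) + C3 := by
          have := mul_le_mul_of_nonneg_left e3 (show 0 ≤ C3 * P by positivity)
          linarith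
      _ = C3 * B * P + C3 * CQ * D * P ^ 2 + C3 * 1 := by ring
      _ ≤ C3 * B * P ^ 2 + C3 * CQ * D * P ^ 2 + C3 * P ^ 2 := by
          have g1 := mul_le_mul_of_nonneg_left hPP (show 0 ≤ C3 * B by positivity)
          have g2 := mul_le_mul_of_nonneg_left hP1 hC3
          linarith
      _ ≤ C3 * (1 + CQ) * P ^ 2 * (B + D + 1) := by
          have g1 : 0 ≤ C3 * P ^ 2 * (CQ * B + D + CQ) := by positivity
          have g2 : C3 * (1 + CQ) * P ^ 2 * (B + D + 1) =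
              (C3 * B * P ^ 2 + C3 * CQ * D * P ^ 2 + C3 * P ^ 2) +
                C3 * P ^ 2 * (CQ * B + D + CQ) := by ring
          rw [g2]
          exact le_add_of_nonneg_right g1
  have e5 : t3 + t2 ≤ (C2 + C3 * (1 + CQ)) * P ^ 2 * (A + B + D + 1) := by
    have g1 : 0 ≤ C2 * P ^ 2 * (B + D + 1) := by positivity
    have g2 : 0 ≤ C3 * (1 + CQ) * P ^ 2 * A := by positivity
    have g3 : (C2 + C3 * (1 + CQ)) * P ^ 2 * (A + B + D + 1) =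
        (C3 * (1 + CQ) * P ^ 2 * (B + D + 1) + C2 * P ^ 2 * A) +
          (C2 * P ^ 2 * (B + D + 1) + C3 * (1 + CQ) * P ^ 2 * A) := by ring
    rw [g3]
    exact le_add_of_le_of_nonneg (add_le_add e4 e2) (add_nonneg g1 g2)
  calc L * m ^ 3 ≤ 12 * τ * N ^ 3 * (t3 + t2) := h
    _ ≤ 12 * τ * N ^ 3 * ((C2 + C3 * (1 + CQ)) * P ^ 2 * (A + B + D + 1)) :=
        mul_le_mul_of_nonneg_left e5 (by positivity)
    _ = _ := by ring

theorem GRD (hMTX : MTX_stmt) (hT2B : T2B_stmt) (hT3B : T3B_stmt) (hQ3B : Q3B_stmt)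
    (hALG : ALG_stmt) (hFEJ : FEJ_stmt) : GRD_stmt := by
  intro ε K₀ hε hK₀
  set δ : ℝ := ε / 4 with hδ
  have hδ0 : 0 < δ := by positivity
  obtain ⟨C₁, hC₁, hM⟩ := hMTX
  obtain ⟨C2, hC2, h2⟩ := hT2B δ hδ0
  obtain ⟨C3, hC3, h3⟩ := hT3B δ hδ0
  obtain ⟨CQ, hCQ, hQ⟩ := hQ3B δ hδ0
  obtain ⟨Cd, hCd, hd⟩ := divisor_bound δ hδ0
  set K₁ : ℝ := 1 + K₀ + CQ with hK₁
  have hK₁0 : 0 < K₁ := by positivity
  set K' : ℝ := 1 + 12 * (Cd * (8 : ℝ) ^ δ) * (C2 + C3 * (1 + CQ)) with hK'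
  have h8 : (0 : ℝ) < 8 ^ δ := Real.rpow_pos_of_pos (by norm_num) _
  have hK'1 : 1 ≤ K' := by
    have : 0 ≤ 12 * (Cd * (8 : ℝ) ^ δ) * (C2 + C3 * (1 + CQ)) := by positivity
    linarith
  refine ⟨C₁ * K₁ + 12 * K', by positivity, ?_⟩
  intro J N hN hJN hNJ
  have hJ : 1 ≤ J := hN.trans hNJ
  have hN' : (1 : ℝ) ≤ N := by exact_mod_cast hN
  have hJ' : (1 : ℝ) ≤ J := by exact_mod_cast hJ
  have hNJ' : (N : ℝ) ≤ J := by exact_mod_cast hNJ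
  have hN0 : (0 : ℝ) < N := by linarith
  have hJ0 : (0 : ℝ) < J := by linarith
  set y : ℝ := (J : ℝ) ^ (5 / 7 : ℝ) * (N : ℝ) ^ (-(6 / 7 : ℝ)) with hy
  have hy0 : 0 < y := by positivity
  set L : ℕ := ⌈y⌉₊ with hL
  have hL1 : 1 ≤ L := Nat.one_le_ceil_iff.2 hy0
  have hL1' : (1 : ℝ) ≤ L := by exact_mod_cast hL1
  have hLy : y ≤ L := Nat.le_ceil y
  have hLy' : (L : ℝ) ≤ 1 + y := by
    have := (Nat.ceil_lt_add_one hy0.le).le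
    linarith
  have hr1 := GRD_r1 (J : ℝ) N hN' hNJ'
  have hr2 := GRD_r2 (J : ℝ) N hN' hNJ'
  rw [← hy] at hr1 hr2
  have hB0 : 0 < BB J N := by
    unfold BB
    positivity
  have hNL : (N : ℝ) * L ≤ 2 * J := by
    calc (N : ℝ) * L ≤ N * (1 + y) := mul_le_mul_of_nonneg_left hLy' hN0.le
      _ = N + N * y := by ring
      _ ≤ 2 * J := by linarith
  have hr3 : (N : ℝ) ^ (3 / 2 : ℝ) * ((N : ℝ) ^ 2 * L) ≤ BB J N := by
    refine le_trans ?_ hr2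
    apply mul_le_mul_of_nonneg_left _ (by positivity)
    exact mul_le_mul_of_nonneg_left hLy' (by positivity)
  have hJε : 1 ≤ (J : ℝ) ^ ε := Real.one_le_rpow hJ' hε.le
  have hJδ : 1 ≤ (J : ℝ) ^ δ := Real.one_le_rpow hJ' hδ0.le
  have hJδε : (J : ℝ) ^ δ ≤ (J : ℝ) ^ ε :=
    Real.rpow_le_rpow_of_exponent_le hJ' (by rw [hδ]; linarith)
  have hJ3 : (J : ℝ) ^ δ * ((J : ℝ) ^ δ) ^ 2 ≤ (J : ℝ) ^ ε := by
    rw [← Real.rpow_natCast, ← Real.rpow_mul hJ0.le, ← Real.rpow_add hJ0]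
    apply Real.rpow_le_rpow_of_exponent_le hJ'
    rw [hδ]
    push_cast
    linarith
  have hNL0 : 0 < (N : ℝ) ^ 2 * L := by positivity
  set V : ℝ := K₁ * (J : ℝ) ^ ε * (BB J N / ((N : ℝ) ^ 2 * L)) with hV
  have hV0 : 0 < V := by positivity
  have hU2 : Real.sqrt V ^ 2 = V := Real.sq_sqrt hV0.le
  have hBL : (N : ℝ) ^ (3 / 2 : ℝ) ≤ BB J N / ((N : ℝ) ^ 2 * L) := by
    rw [le_div_iff₀ hNL0]
    exact hr3
  have hVN : K₁ * (J : ℝ) ^ ε * (N : ℝ) ^ (3 / 2 : ℝ) ≤ V :=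
    mul_le_mul_of_nonneg_left hBL (by positivity)
  have hU0 : 0 < Real.sqrt V := Real.sqrt_pos.2 hV0
  refine ⟨Real.sqrt V, hU0, ?_, ?_⟩
  · rw [hU2]
    refine le_trans ?_ hVN
    apply mul_le_mul_of_nonneg_right _ (by positivity)
    exact mul_le_mul_of_nonneg_right (by rw [hK₁]; linarith) (by positivity)
  intro a ha
  set U : ℝ := Real.sqrt V with hU
  have hQc : CQ * (J : ℝ) ^ δ * (N : ℝ) ^ (3 / 2 : ℝ) ≤ U ^ 2 := by
    rw [hU2]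
    refine le_trans ?_ hVN
    apply mul_le_mul_of_nonneg_right _ (by positivity)
    exact mul_le_mul (by rw [hK₁]; linarith) hJδε (by positivity) hK₁0.le
  have hNLU : (N : ℝ) ^ 2 * L * U ^ 2 = K₁ * (J : ℝ) ^ ε * BB J N := by
    rw [hU2, hV]
    field_simp
  set F : ℤ → ℝ := FU J N a U with hF
  set m : ℝ := mF J N a U with hm
  have hFj : ∀ j ∈ IJ J, 0 ≤ F j ∧ F j ≤ F0 J N a j ∧ F0 J N a j ≤ ‖DP N a (j : ℝ)‖ ^ 2 :=
    fun j hj => GRD_F hFEJ J N a U j hj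
  have hm0 : 0 ≤ m := by
    rw [hm]
    unfold mF
    exact Finset.sum_nonneg (fun j hj => mul_nonneg (hFj j hj).1 (by positivity))
  have hF2 : ∑ j ∈ IJ J, F j ^ 2 ≤ m := by
    rw [hm]
    unfold mF
    refine Finset.sum_le_sum (fun j hj => ?_)
    obtain ⟨g0, g1, g2⟩ := hFj j hj
    rw [sq]
    exact mul_le_mul_of_nonneg_left (g1.trans g2) g0
  have hF20 : 0 ≤ ∑ j ∈ IJ J, F j ^ 2 := Finset.sum_nonneg (fun j _ => by positivity)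
  rcases le_or_gt m (C₁ * (N : ℝ) ^ 2 * L * U ^ 2) with hcase | hcase
  · calc m ≤ C₁ * (N : ℝ) ^ 2 * L * U ^ 2 := hcase
      _ = C₁ * ((N : ℝ) ^ 2 * L * U ^ 2) := by ring
      _ = C₁ * K₁ * (J : ℝ) ^ ε * BB J N := by rw [hNLU]; ring
      _ ≤ (C₁ * K₁ + 12 * K') * (J : ℝ) ^ ε * BB J N := by
          apply mul_le_mul_of_nonneg_right _ hB0.le
          apply mul_le_mul_of_nonneg_right _ (by positivity)
          linarith
  · set τ : ℝ := Cd * (8 : ℝ) ^ δ * (J : ℝ) ^ δ with hτ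
    have hτ0 : 0 < τ := by positivity
    have hτk : ∀ k : ℕ, 1 ≤ k → k ≤ 4 * N * L → d k ≤ τ := by
      intro k hk1 hk2
      refine (hd k hk1).trans ?_
      rw [hτ, mul_assoc, ← Real.mul_rpow (by norm_num) hJ0.le]
      apply mul_le_mul_of_nonneg_left _ hCd.le
      apply Real.rpow_le_rpow (by positivity) _ hδ0.le
      have hk3 : (k : ℝ) ≤ 4 * N * L := by exact_mod_cast hk2
      linarith
    have hmain := hM J N L a U τ hJ hN hL1 hU0 ha hτk hcase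
    have ht2 := h2 J N ((N : ℝ) * L) a F hN hNJ (le_mul_of_one_le_right hN0.le hL1') ha
      (fun j hj => ⟨(hFj j hj).1, (hFj j hj).2.1⟩)
    have ht3 := h3 J ((N : ℝ) * L) F hJ (one_le_mul_of_one_le_of_one_le hN' hL1') hNL (fun j hj => by
      obtain ⟨g0, g1, g2⟩ := hFj j hj
      refine ⟨g0, (g1.trans g2).trans ?_⟩
      have g3 := GRD_DP N a ha (j : ℝ)
      have g4 : ‖DP N a (j : ℝ)‖ ≤ J := g3.trans hNJ'
      exact pow_le_pow_left₀ (norm_nonneg _) g4 2)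
    have htQ := hQ J N a U hN hNJ hU0 ha hQc
    rw [← hF] at htQ hmain
    have ht2' : ‖T2 J F ((N : ℝ) * L)‖ ≤ C2 * (J : ℝ) ^ δ * (((N : ℝ) * L) ^ 2 * J * N) * m :=
      ht2.trans (mul_le_mul_of_nonneg_left hF2 (by positivity))
    have h32 : (∑ j ∈ IJ J, F j ^ 2) ^ (3 / 2 : ℝ) ≤ m ^ (3 / 2 : ℝ) :=
      Real.rpow_le_rpow hF20 hF2 (by norm_num)
    have ht3' : ‖T3 J F ((N : ℝ) * L)‖ ≤ C3 * (J : ℝ) ^ δ * ((J : ℝ) ^ 2 * m ^ (3 / 2 : ℝ) +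
        (N : ℝ) * L * J * ∫ x in (-5 : ℝ)..5, ‖rF J F x‖ ^ 3) + C3 := by
      refine ht3.trans ?_
      have g1 : (J : ℝ) ^ 2 * (∑ j ∈ IJ J, F j ^ 2) ^ (3 / 2 : ℝ) ≤
          (J : ℝ) ^ 2 * m ^ (3 / 2 : ℝ) := mul_le_mul_of_nonneg_left h32 (by positivity)
      have g2 := mul_le_mul_of_nonneg_left (add_le_add_left g1
        ((N : ℝ) * L * J * ∫ x in (-5 : ℝ)..5, ‖rF J F x‖ ^ 3))
        (show 0 ≤ C3 * (J : ℝ) ^ δ by positivity)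
      linarith
    set R : ℝ := (N : ℝ) ^ 2 + (J : ℝ) ^ (1 / 2 : ℝ) * (N : ℝ) ^ 3 / U ^ 2 with hR
    have hR0 : 0 ≤ R := by positivity
    have htQ' : ∫ x in (-5 : ℝ)..5, ‖rF J F x‖ ^ 3 ≤
        CQ * (J : ℝ) ^ δ * (R * m + (J : ℝ) ^ 2 * (N : ℝ) ^ 3) := by
      refine htQ.trans ?_
      have g1 := mul_le_mul_of_nonneg_left hF2 hR0
      apply mul_le_mul_of_nonneg_left _ (by positivity)
      linarith
    have hfin := GRD_alg (J : ℝ) N L m τ (‖T3 J F ((N : ℝ) * L)‖) (‖T2 J F ((N : ℝ) * L)‖)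
      ((J : ℝ) ^ δ) C2 C3 CQ _ R hJδ hN0.le (by linarith) hJ0.le hm0 hτ0.le hC2.le hC3.le hCQ.le
      hR0 htQ' (by positivity) ht3' ht2' hmain
    set K : ℝ := K' * ((J : ℝ) ^ δ * ((J : ℝ) ^ δ) ^ 2) with hK
    have hPP : 1 ≤ (J : ℝ) ^ δ * ((J : ℝ) ^ δ) ^ 2 := by
      have : (1 : ℝ) ≤ ((J : ℝ) ^ δ) ^ 2 := one_le_pow₀ hJδ
      exact one_le_mul_of_one_le_of_one_le hJδ this
    have hK1 : 1 ≤ K := by
      rw [hK]
      exact one_le_mul_of_one_le_of_one_le hK'1 hPP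
    have hKle : 12 * τ * (C2 + C3 * (1 + CQ)) * ((J : ℝ) ^ δ) ^ 2 ≤ K := by
      rw [hK, hτ, hK']
      have g1 : 0 ≤ (J : ℝ) ^ δ * ((J : ℝ) ^ δ) ^ 2 := by positivity
      have g2 : (1 + 12 * (Cd * (8 : ℝ) ^ δ) * (C2 + C3 * (1 + CQ))) *
          ((J : ℝ) ^ δ * ((J : ℝ) ^ δ) ^ 2) =
          12 * (Cd * (8 : ℝ) ^ δ * (J : ℝ) ^ δ) * (C2 + C3 * (1 + CQ)) * ((J : ℝ) ^ δ) ^ 2 +
            (J : ℝ) ^ δ * ((J : ℝ) ^ δ) ^ 2 := by ring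
      rw [g2]
      exact le_add_of_nonneg_right g1
    have hbr : 0 ≤ (((N : ℝ) * L) ^ 2 * J * N * m + (J : ℝ) ^ 2 * m ^ (3 / 2 : ℝ) +
        (N : ℝ) * L * J * (R * m + (J : ℝ) ^ 2 * (N : ℝ) ^ 3) + 1) := by positivity
    have hlast : (L : ℝ) * m ^ 3 ≤ K * (N : ℝ) ^ 3 * (((N : ℝ) * L) ^ 2 * J * N * m +
        (J : ℝ) ^ 2 * m ^ (3 / 2 : ℝ) +
        (N : ℝ) * L * J * (R * m + (J : ℝ) ^ 2 * (N : ℝ) ^ 3) + 1) := by
      refine hfin.trans ?_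
      apply mul_le_mul_of_nonneg_right _ hbr
      exact mul_le_mul_of_nonneg_right hKle (by positivity)
    have hA := hALG (J : ℝ) N m K U L hJ' hJN hNJ' hK1 hm0 hU0 hL1' hLy hLy' (by
      rw [hNLU]
      have g1 : 1 ≤ K₁ * (J : ℝ) ^ ε := by
        have : 1 ≤ K₁ := by rw [hK₁]; linarith
        exact one_le_mul_of_one_le_of_one_le this hJε
      exact le_mul_of_one_le_left hB0.le g1) hlast
    calc m ≤ 12 * K * BB J N := hA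
      _ = 12 * K' * ((J : ℝ) ^ δ * ((J : ℝ) ^ δ) ^ 2) * BB J N := by rw [hK]; ring
      _ ≤ 12 * K' * (J : ℝ) ^ ε * BB J N := by
          apply mul_le_mul_of_nonneg_right _ hB0.le
          exact mul_le_mul_of_nonneg_left hJ3 (by positivity)
      _ ≤ (C₁ * K₁ + 12 * K') * (J : ℝ) ^ ε * BB J N := by
          apply mul_le_mul_of_nonneg_right _ hB0.le
          apply mul_le_mul_of_nonneg_right _ (by positivity)
          have : 0 ≤ C₁ * K₁ := by positivity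
          linarith

end Pool.Agent.LW
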